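import Pool.Agent.Helper19.NF.Model

/-!
# The recursive evaluation with a pushdown store (cells with words)
-/

set_option autoImplicit false

namespace Pool.Agent.Helper96.NF

open Pool.Agent.Helper19.NF

/-! ## Runs -/

section runs

variable {C W Z Q Γ : Type}

/-- From the configuration `c` the program outputs `a` and queries only cells in `Y`. -/
def Good (P : PProg C W Z Q Γ) (I : C → W) (Y : Set C) (a : Z) (c : Q × List Γ) : Prop :=
  (∃ m, P.act ((P.step I)^[m] c).1 = .out a) ∧
    ∀ m v nx, P.act ((P.step I)^[m] c).1 = .ask v nx → v ∈ Y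

variable {P : PProg C W Z Q Γ} {I : C → W} {Y : Set C} {a : Z}

theorem good_out {c : Q × List Γ} (h : P.act c.1 = .out a) : Good P I Y a c := by
  have h1 : ∀ m, (P.step I)^[m] c = c := by
    intro m
    induction m with
    | zero => rfl
    | succ m ih =>
      rw [Function.iterate_succ_apply', ih]
      unfold PProg.step
      simp only [h]
  refine ⟨⟨0, h⟩, fun m v nx hm => ?_⟩
  rw [h1, h] at hm
  cases hm

theorem good_one {c c' : Q × List Γ} (h : P.step I c = c') (hY : ∀ v nx, P.act c.1 = .ask v nx → v ∈ Y)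
    (hg : Good P I Y a c') : Good P I Y a c := by
  obtain ⟨⟨m, hm⟩, h2⟩ := hg
  refine ⟨⟨m + 1, by rw [Function.iterate_succ_apply, h]; exact hm⟩, fun m' v nx hm' => ?_⟩
  rcases m' with _ | m'
  · exact hY v nx hm'
  · rw [Function.iterate_succ_apply, h] at hm'
    exact h2 m' v nx hm'

theorem good_ask {s : Q} {st : List Γ} {v : C} {nx : W → Q} (h : P.act s = .ask v nx) (hv : v ∈ Y)
    (hg : Good P I Y a (nx (I v), st)) : Good P I Y a (s, st) := by
  refine good_one ?_ ?_ hg
  · unfold PProg.step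
    simp only [h]
  · intro v' nx' h'
    rw [h] at h'
    cases h'
    exact hv

theorem good_push {s s' : Q} {st : List Γ} {g : Γ} (h : P.act s = .push g s')
    (hg : Good P I Y a (s', g :: st)) : Good P I Y a (s, st) := by
  refine good_one ?_ ?_ hg
  · unfold PProg.step
    simp only [h]
  · intro v' nx' h'
    rw [h] at h'
    cases h'

theorem good_pop {s : Q} {st : List Γ} {g : Γ} {nx : Γ → Q} (h : P.act s = .pop nx)
    (hg : Good P I Y a (nx g, st)) : Good P I Y a (s, g :: st) := by
  refine good_one ?_ ?_ hg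
  · unfold PProg.step
    simp only [h]
  · intro v' nx' h'
    rw [h] at h'
    cases h'

end runs

/-! ## The program -/

section program

variable {U D B X K : Type} [Fintype D] {R d : ℕ}

/-- The slots: a row number, an element, a summand. -/
abbrev Slot (R : ℕ) (U : Type) (d : ℕ) : Type := Fin R × U × Fin d

/-- The states: a slot `(i, u, s)` (the summand `s` for the element `u` of row `i + 1`) and the sum before it; the same
with the argument; a value just found; other states. -/
abbrev St (R : ℕ) (U : Type) (d : ℕ) (B X : Type) : Type := (Slot R U d × B) ⊕ (Slot R U d × B × B) ⊕ B ⊕ X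

/-- The stack symbols. -/
abbrev Sy (R : ℕ) (U : Type) (d : ℕ) (B K : Type) : Type := (Slot R U d × B) ⊕ K

variable [AddCommGroup B]

/-- The state in which the evaluation of the element `u` of row `i` starts. -/
def ent (hd : 0 < d) (x0 : U → B) : (i : ℕ) → i ≤ R → U → St R U d B X
  | 0, _, u => .inr (.inr (.inl (x0 u)))
  | i + 1, h, u => .inl ((⟨i, h⟩, u, ⟨0, hd⟩), 0)

/-- The state after the slot `(i, u, s)`, with the new sum `t`. -/
def nxt (i : Fin R) (u : U) (s : Fin d) (t : B) : St R U d B X :=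
  if h : (s : ℕ) + 1 < d then .inl ((i, u, ⟨s + 1, h⟩), t) else .inr (.inr (.inl t))

/-- The instructions; `ax`, `ret` belong to the evaluation of the result. -/
def pact (e : Fin d ≃ D) (hd : 0 < d) (g : D → Equiv.Perm U) (x0 : U → B)
    (ax : X → PAct B (D → B) B (St R U d B X) (Sy R U d B K)) (ret : K → B → X) :
    St R U d B X → PAct B (D → B) B (St R U d B X) (Sy R U d B K)
  | .inl (σ, t) => .push (.inl (σ, t)) (ent hd x0 σ.1 σ.1.2.le (g (e σ.2.2) σ.2.1))
  | .inr (.inl (σ, t, x)) => .ask x (fun w => nxt σ.1 σ.2.1 σ.2.2 (t + w (e σ.2.2)))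
  | .inr (.inr (.inl x)) => .pop (fun y => match y with
      | .inl (σ, t) => .inr (.inl (σ, t, x))
      | .inr k => .inr (.inr (.inr (ret k x))))
  | .inr (.inr (.inr x)) => ax x

/-- The program. -/
def prog (e : Fin d ≃ D) (hd : 0 < d) (g : D → Equiv.Perm U) (x0 : U → B)
    (ax : X → PAct B (D → B) B (St R U d B X) (Sy R U d B K)) (ret : K → B → X) (x : X) :
    PProg B (D → B) B (St R U d B X) (Sy R U d B K) where
  start := .inr (.inr (.inr x))
  act := pact e hd g x0 ax ret

variable (e : Fin d ≃ D) (hd : 0 < d) (g : D → Equiv.Perm U) (x0 : U → B)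
    (ax : X → PAct B (D → B) B (St R U d B X) (Sy R U d B K)) (ret : K → B → X) (x : X) (I : B → D → B)

/-- One summand, or `0`. -/
def tb (i : ℕ) (u : U) (s : ℕ) : B :=
  if h : s < d then I (val g x0 I i (g (e ⟨s, h⟩) u)) (e ⟨s, h⟩) else 0

theorem sum_tb (i : ℕ) (u : U) : ∑ s ∈ Finset.range d, tb e g x0 I i u s = val g x0 I (i + 1) u := by
  unfold tb
  rw [← Finset.sum_fin_eq_sum_range (fun s : Fin d => I (val g x0 I i (g (e s) u)) (e s))]
  exact Equiv.sum_comp e (fun c => I (val g x0 I i (g c u)) c)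

/-- The work at one slot. -/
theorem run_slot {i : ℕ} {hi : i < R} {u : U} {Y : Set B} {a : B} {st : List (Sy R U d B K)}
    (hY : ∀ i < R, ∀ w, val g x0 I i w ∈ Y)
    (IH : ∀ (hi : i ≤ R) (u : U) (st : List (Sy R U d B K)),
      Good (prog e hd g x0 ax ret x) I Y a (.inr (.inr (.inl (val g x0 I i u))), st) →
      Good (prog e hd g x0 ax ret x) I Y a (ent hd x0 i hi u, st))
    {j : ℕ} (hj : j < d) {t : B}
    (h : Good (prog e hd g x0 ax ret x) I Y a (nxt ⟨i, hi⟩ u ⟨j, hj⟩ (t + tb e g x0 I i u j), st)) :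
    Good (prog e hd g x0 ax ret x) I Y a (.inl ((⟨i, hi⟩, u, ⟨j, hj⟩), t), st) := by
  refine good_push (P := prog e hd g x0 ax ret x) (g := .inl ((⟨i, hi⟩, u, ⟨j, hj⟩), t)) rfl ?_
  refine IH _ _ _ ?_
  refine good_pop (P := prog e hd g x0 ax ret x) (s := .inr (.inr (.inl _))) rfl ?_
  refine good_ask (P := prog e hd g x0 ax ret x) (s := .inr (.inl _)) rfl (hY i hi _) ?_
  show Good (prog e hd g x0 ax ret x) I Y a
    (nxt ⟨i, hi⟩ u ⟨j, hj⟩ (t + I (val g x0 I i (g (e ⟨j, hj⟩) u)) (e ⟨j, hj⟩)), st)
  rw [tb, dif_pos hj] at h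
  exact h

/-- The evaluation of an element of a row. -/
theorem run_val {Y : Set B} (hY : ∀ i < R, ∀ w, val g x0 I i w ∈ Y) (a : B) :
    ∀ (i : ℕ) (hi : i ≤ R) (u : U) (st : List (Sy R U d B K)),
    Good (prog e hd g x0 ax ret x) I Y a (.inr (.inr (.inl (val g x0 I i u))), st) →
    Good (prog e hd g x0 ax ret x) I Y a (ent hd x0 i hi u, st) := by
  intro i
  induction i with
  | zero => intro hi u st h; exact h
  | succ i IH =>
    intro hi u st h
    have key : ∀ (m j : ℕ) (hj : j < d), d = j + (m + 1) → ∀ t : B, t = ∑ s ∈ Finset.range j, tb e g x0 I i u s →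
        Good (prog e hd g x0 ax ret x) I Y a (.inl ((⟨i, hi⟩, u, ⟨j, hj⟩), t), st) := by
      intro m
      induction m with
      | zero =>
        intro j hj hd' t ht
        refine run_slot e hd g x0 ax ret x I hY IH hj ?_
        have e1 : t + tb e g x0 I i u j = val g x0 I (i + 1) u := by
          rw [← sum_tb e, ht]
          have hr : Finset.range d = Finset.range (j + 1) := congrArg Finset.range (by omega)
          rw [hr, Finset.sum_range_succ]
        rw [e1]
        unfold nxt
        rw [dif_neg (by show ¬ (j + 1 < d); omega)]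
        exact h
      | succ m ih =>
        intro j hj hd' t ht
        refine run_slot e hd g x0 ax ret x I hY IH hj ?_
        unfold nxt
        rw [dif_pos (by show j + 1 < d; omega)]
        refine ih (j + 1) _ (by omega) _ ?_
        rw [Finset.sum_range_succ, ht]
    exact key (d - 1) 0 hd (by omega) 0 (by simp)

end program

/-! ## One value -/

section one

variable {U D B : Type} [Fintype D] [AddCommGroup B] {R d : ℕ}

/-- The instructions for the evaluation of one element: the initial state, and the final states with a value. -/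
def ax1 (hd : 0 < d) (x0 : U → B) (R : ℕ) (u : U) :
    Unit ⊕ B → PAct B (D → B) B (St R U d B (Unit ⊕ B)) (Sy R U d B Unit)
  | .inl _ => .push (.inr ()) (ent hd x0 R le_rfl u)
  | .inr z => .out z

/-- The program for one value. -/
def prog1 (e : Fin d ≃ D) (hd : 0 < d) (g : D → Equiv.Perm U) (x0 : U → B) (R : ℕ) (u : U) :
    PProg B (D → B) B (St R U d B (Unit ⊕ B)) (Sy R U d B Unit) :=
  prog e hd g x0 (ax1 hd x0 R u) (fun _ z => .inr z) (.inl ())

/-- The program for one value. -/
theorem one_value [Fintype B] [Fintype U] [Nonempty D] (g : D → Equiv.Perm U) (x0 : U → B) (R : ℕ) (u : U) :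
    ∃ (Q Γ : Type) (_ : Finite Q) (_ : Finite Γ) (P : PProg B (D → B) B Q Γ),
      Nat.card Q = (R * (Fintype.card U * Fintype.card D)) * (Fintype.card B + Fintype.card B * Fintype.card B) +
        2 * Fintype.card B + 1 ∧
      Nat.card Γ = (R * (Fintype.card U * Fintype.card D)) * Fintype.card B + 1 ∧
      ∀ I, P.Outputs I (val g x0 I R u) ∧ Nat.card {b // P.Asks I b} ≤ R * Fintype.card U := by
  classical
  have hd : 0 < Fintype.card D := Fintype.card_pos
  let e : Fin (Fintype.card D) ≃ D := (Fintype.equivFin D).symm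
  refine ⟨St R U (Fintype.card D) B (Unit ⊕ B), Sy R U (Fintype.card D) B Unit, inferInstance, inferInstance,
    prog1 e hd g x0 R u, ?_, ?_, fun I => ?_⟩
  · rw [Nat.card_eq_fintype_card]
    simp only [Fintype.card_sum, Fintype.card_prod, Fintype.card_fin, Fintype.card_unit]
    ring
  · rw [Nat.card_eq_fintype_card]
    simp only [Fintype.card_sum, Fintype.card_prod, Fintype.card_fin, Fintype.card_unit]
  · have hY : ∀ i < R, ∀ w, val g x0 I i w ∈ Set.range (fun y : Fin R × U => val g x0 I y.1 y.2) :=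
      fun i hi w => ⟨(⟨i, hi⟩, w), rfl⟩
    have hg : Good (prog1 e hd g x0 R u) I
        (Set.range (fun y : Fin R × U => val g x0 I y.1 y.2)) (val g x0 I R u)
        (.inr (.inr (.inr (.inl ()))), []) := by
      refine good_push (P := prog1 e hd g x0 R u) (g := .inr ()) rfl ?_
      refine run_val e hd g x0 (ax1 hd x0 R u) _ _ I hY _ R le_rfl u _ ?_
      refine good_pop (P := prog1 e hd g x0 R u) (s := .inr (.inr (.inl _))) rfl ?_
      exact good_out rfl
    obtain ⟨h1, h2⟩ := hg
    refine ⟨h1, ?_⟩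
    have h3 : ∀ b : {b // (prog1 e hd g x0 R u).Asks I b}, ∃ y : Fin R × U, val g x0 I y.1 y.2 = b.1 := by
      rintro ⟨b, m, nx, hm⟩
      exact h2 m b nx hm
    choose f hf using h3
    have h4 : Function.Injective f := fun c c' h => Subtype.ext (by rw [← hf c, ← hf c', h])
    calc Nat.card {b // (prog1 e hd g x0 R u).Asks I b} ≤ Nat.card (Fin R × U) :=
          Nat.card_le_card_of_injective f h4
      _ = R * Fintype.card U := by
        rw [Nat.card_eq_fintype_card, Fintype.card_prod, Fintype.card_fin]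

end one

/-- F13: the pushdown program. -/
theorem pushdown_program {n m : ℕ} [NeZero m] {B : Type} [AddCommGroup B] [Fintype B] (hn : 1 ≤ n)
    (x0 : ZMod (n + 1) × ZMod m → B) (hB : n * (n + 1) * m ≤ Fintype.card B) (hB2 : 2 ≤ Fintype.card B) :
    ∃ (Q Γ : Type) (_ : Finite Q) (_ : Finite Γ) (P : PProg B (Bool × ZMod m → B) B Q Γ),
      Nat.card Q ≤ (2 * Fintype.card B) ^ 4 ∧ Nat.card Γ ≤ (2 * Fintype.card B) ^ 4 ∧
      ∀ I, P.Outputs I (out x0 I) ∧ Nat.card {b // P.Asks I b} ≤ n * (n + 1) * m := by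
  obtain ⟨Q, Γ, h1, h2, P, h3, h4, h5⟩ := one_value (ring n m) x0 n (0, 0)
  have hU : Fintype.card (ZMod (n + 1) × ZMod m) = (n + 1) * m := by
    rw [Fintype.card_prod, ZMod.card, ZMod.card]
  have hD : Fintype.card (Bool × ZMod m) = 2 * m := by
    rw [Fintype.card_prod, Fintype.card_bool, ZMod.card]
  rw [hU, hD] at h3
  rw [hU, hD] at h4
  rw [hU] at h5
  have hm : 1 ≤ m := NeZero.one_le
  generalize Fintype.card B = k at hB hB2 h3 h4 ⊢
  have e1 : n * ((n + 1) * m * (2 * m)) ≤ k * k := by
    have e2 : 2 * m ≤ k := by nlinarith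
    calc n * ((n + 1) * m * (2 * m)) = (n * (n + 1) * m) * (2 * m) := by ring
      _ ≤ k * k := Nat.mul_le_mul hB e2
  have e5 : k * k * (k + k * k) ≤ 2 * (k * k * (k * k)) := by nlinarith [Nat.mul_le_mul (le_refl (k * k)) (by nlinarith : k ≤ k * k)]
  have e6 : 2 * k + 1 ≤ k * k * (k * k) := by
    have : 4 ≤ k * k := Nat.mul_le_mul hB2 hB2
    nlinarith [Nat.mul_le_mul this (le_refl (k * k))]
  refine ⟨Q, Γ, h1, h2, P, ?_, ?_, fun I => ⟨(h5 I).1, (h5 I).2.trans (by rw [mul_assoc])⟩⟩
  · rw [h3]
    calc n * ((n + 1) * m * (2 * m)) * (k + k * k) + 2 * k + 1 ≤ k * k * (k + k * k) + (2 * k + 1) := by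
          have := Nat.mul_le_mul e1 (le_refl (k + k * k))
          omega
      _ ≤ 16 * (k * k * (k * k)) := by omega
      _ = (2 * k) ^ 4 := by ring
  · rw [h4]
    calc n * ((n + 1) * m * (2 * m)) * k + 1 ≤ k * k * (k + k * k) + (2 * k + 1) := by
          have := Nat.mul_le_mul e1 (le_refl k)
          nlinarith
      _ ≤ 16 * (k * k * (k * k)) := by omega
      _ = (2 * k) ^ 4 := by ring

end Pool.Agent.Helper96.NF
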